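import Mathlib
import Pool.Agent.V11100.Blocks

open Filter Topology
open Pool.Agent.V11100

namespace Pool.Agent.Results.MP_ee84c2_an.LUCCNotSUCC

section Defs
variable (𝕜 : Type*) [RCLike 𝕜] {X : Type*} [NormedAddCommGroup X] [NormedSpace 𝕜 X]

/-- `(x_n)` is a basis with coordinate functionals `(f_n)`: its span is dense and the system is
biorthogonal. -/
structure IsBasis (x : ℕ → X) (f : ℕ → StrongDual 𝕜 X) : Prop where
  dense : (Submodule.span 𝕜 (Set.range x)).topologicalClosure = ⊤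
  biorth : ∀ i j, f i (x j) = if i = j then 1 else 0

/-- Suppression unconditional for constant coefficients. -/
def SUCC (x : ℕ → X) : Prop :=
  ∃ C : ℝ, 1 ≤ C ∧ ∀ (A B : Finset ℕ) (ε : ℕ → 𝕜), B ⊆ A → (∀ n ∈ A, ‖ε n‖ = 1) →
    ‖∑ n ∈ B, ε n • x n‖ ≤ C * ‖∑ n ∈ A, ε n • x n‖

/-- Lower unconditional for constant coefficients. -/
def LUCC (x : ℕ → X) : Prop :=
  ∃ C : ℝ, 1 ≤ C ∧ ∀ (A : Finset ℕ) (ε : ℕ → 𝕜) (a : ℕ → ℝ), (∀ n ∈ A, ‖ε n‖ = 1) →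
    (∀ n ∈ A, 1 ≤ a n) →
      ‖∑ n ∈ A, ε n • x n‖ ≤ C * ‖∑ n ∈ A, (ε n * (a n : 𝕜)) • x n‖

end Defs

/-! ### Block norms -/

section Block
variable {𝕜 : Type*} [RCLike 𝕜]

/-- The mean of `c` over the `N`-th block. -/
noncomputable def mean (c : ℕ → 𝕜) (N : ℕ) : 𝕜 := (((2 * N + 1 : ℝ)⁻¹ : ℝ) : 𝕜) * ∑ n ∈ block N, c n

/-- The norm contributed by the `N`-th block. -/
noncomputable def g (c : ℕ → 𝕜) (N : ℕ) : ℝ := ∑ n ∈ block N, ‖c n - mean c N‖ + ‖mean c N‖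

theorem mean_sub_le (c : ℕ → 𝕜) (N : ℕ) (s : 𝕜) :
    (2 * N + 1 : ℝ) * ‖mean c N - s‖ ≤ ∑ n ∈ block N, ‖c n - s‖ := by
  have h1 : ((2 * N + 1 : ℝ) : 𝕜) * (mean c N - s) = ∑ n ∈ block N, (c n - s) := by
    rw [Finset.sum_sub_distrib, Finset.sum_const, card_block, mul_sub, mean, ← mul_assoc,
      ← RCLike.ofReal_mul, mul_inv_cancel₀ (by positivity), RCLike.ofReal_one, one_mul,
      nsmul_eq_mul]
    push_cast
    rfl
  have h2 : ‖((2 * N + 1 : ℝ) : 𝕜) * (mean c N - s)‖ = (2 * N + 1 : ℝ) * ‖mean c N - s‖ := by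
    rw [norm_mul, RCLike.norm_ofReal, abs_of_nonneg (by positivity)]
  rw [← h2, h1]
  exact norm_sum_le _ _

theorem g_le (c : ℕ → 𝕜) (N : ℕ) (s : 𝕜) :
    g c N ≤ 3 * (∑ n ∈ block N, ‖c n - s‖ + ‖s‖) := by
  have h1 := mean_sub_le c N s
  have h2 : ∑ n ∈ block N, ‖c n - mean c N‖ ≤
      ∑ n ∈ block N, ‖c n - s‖ + (2 * N + 1 : ℝ) * ‖mean c N - s‖ := by
    have : ∑ n ∈ block N, ‖c n - mean c N‖ ≤ ∑ n ∈ block N, (‖c n - s‖ + ‖mean c N - s‖) := by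
      apply Finset.sum_le_sum
      intro n _
      have e : c n - mean c N = (c n - s) - (mean c N - s) := by ring
      rw [e]
      exact norm_sub_le _ _
    refine this.trans (le_of_eq ?_)
    rw [Finset.sum_add_distrib, Finset.sum_const, card_block]
    simp
  have h3 : ‖mean c N‖ ≤ ‖s‖ + ‖mean c N - s‖ := by
    have e : mean c N = s + (mean c N - s) := by ring
    conv_lhs => rw [e]
    exact norm_add_le _ _
  have h4 : ‖mean c N - s‖ ≤ (2 * N + 1 : ℝ) * ‖mean c N - s‖ := by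
    have : (1 : ℝ) ≤ 2 * N + 1 := by
      have : (0 : ℝ) ≤ N := Nat.cast_nonneg N
      linarith
    nlinarith [norm_nonneg (mean c N - s)]
  have h5 := norm_nonneg s
  unfold g
  linarith

/-- Radial retraction onto the unit disc. -/
noncomputable def ret (z : 𝕜) : 𝕜 := (((max 1 ‖z‖)⁻¹ : ℝ) : 𝕜) * z

theorem ret_zero : ret (0 : 𝕜) = 0 := by simp [ret]

theorem ret_mul {ε : 𝕜} (hε : ‖ε‖ = 1) {a : ℝ} (ha : 1 ≤ a) : ret (ε * (a : 𝕜)) = ε := by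
  have h0 : (a : 𝕜) ≠ 0 := by exact_mod_cast (by linarith : a ≠ 0)
  unfold ret
  rw [norm_mul, hε, one_mul, RCLike.norm_ofReal, abs_of_nonneg (by linarith), max_eq_right ha,
    RCLike.ofReal_inv]
  field_simp

theorem ret_lip (z w : 𝕜) : ‖ret z - ret w‖ ≤ 2 * ‖z - w‖ := by
  set m := max 1 ‖z‖ with hm
  set k := max 1 ‖w‖ with hk
  have hm1 : 1 ≤ m := le_max_left _ _
  have hk1 : 1 ≤ k := le_max_left _ _
  have hwk : ‖w‖ ≤ k := le_max_right _ _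
  have e : ret z - ret w = ((m⁻¹ : ℝ) : 𝕜) * (z - w) + (((m⁻¹ - k⁻¹ : ℝ)) : 𝕜) * w := by
    simp only [ret, ← hm, ← hk, RCLike.ofReal_sub]
    ring
  rw [e]
  refine (norm_add_le _ _).trans ?_
  rw [norm_mul, norm_mul, RCLike.norm_ofReal, RCLike.norm_ofReal, abs_of_nonneg (by positivity)]
  have h1 : m⁻¹ ≤ 1 := inv_le_one_of_one_le₀ hm1
  have h2 : m⁻¹ * ‖z - w‖ ≤ ‖z - w‖ := by
    nlinarith [norm_nonneg (z - w)]
  have h3 : |m⁻¹ - k⁻¹| * ‖w‖ ≤ ‖z - w‖ := by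
    have e1 : m⁻¹ - k⁻¹ = (k - m) * (m⁻¹ * k⁻¹) := by
      field_simp
    have h4 : |k - m| ≤ ‖z - w‖ := by
      have h5 : |max 1 ‖w‖ - max 1 ‖z‖| ≤ |‖w‖ - ‖z‖| := by
        have := abs_max_sub_max_le_abs ‖w‖ ‖z‖ 1
        rw [max_comm ‖w‖ 1, max_comm ‖z‖ 1] at this
        exact this
      refine h5.trans ((abs_norm_sub_norm_le w z).trans (le_of_eq (norm_sub_rev w z)))
    rw [e1, abs_mul, abs_of_nonneg (by positivity : 0 ≤ m⁻¹ * k⁻¹)]
    have h6 : k⁻¹ * ‖w‖ ≤ 1 := by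
      rw [inv_mul_le_iff₀ (by positivity), mul_one]; exact hwk
    calc |k - m| * (m⁻¹ * k⁻¹) * ‖w‖ = |k - m| * (m⁻¹ * (k⁻¹ * ‖w‖)) := by ring
      _ ≤ |k - m| * (1 * 1) := by gcongr
      _ ≤ ‖z - w‖ := by rw [one_mul, mul_one]; exact h4
  linarith

theorem g_ret (d : ℕ → 𝕜) (N : ℕ) : g (fun n => ret (d n)) N ≤ 6 * g d N := by
  have h1 := g_le (fun n => ret (d n)) N (ret (mean d N))
  have h2 : ∑ n ∈ block N, ‖ret (d n) - ret (mean d N)‖ ≤ 2 * ∑ n ∈ block N, ‖d n - mean d N‖ := by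
    rw [Finset.mul_sum]
    exact Finset.sum_le_sum (fun n _ => ret_lip _ _)
  have h3 : ‖ret (mean d N)‖ ≤ 2 * ‖mean d N‖ := by
    have := ret_lip (mean d N) 0
    rwa [ret_zero, sub_zero, sub_zero] at this
  have h4 : g d N = ∑ n ∈ block N, ‖d n - mean d N‖ + ‖mean d N‖ := rfl
  rw [h4]
  linarith

end Block

/-! ### The space -/

variable (𝕜 : Type) [RCLike 𝕜]

/-- The ambient space `ℓ¹`. -/
abbrev L1 : Type := lp (fun _ : ℕ ⊕ ℕ => 𝕜) 1

/-- Coordinates. -/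
noncomputable def ev (i : ℕ ⊕ ℕ) : L1 𝕜 →L[𝕜] 𝕜 := lp.evalCLM 𝕜 (fun _ : ℕ ⊕ ℕ => 𝕜) 1 i

theorem ev_apply (i : ℕ ⊕ ℕ) (v : L1 𝕜) : ev 𝕜 i v = v i := rfl

/-- The weight `1/(2N+1)` with `N = √n`. -/
noncomputable def wt (n : ℕ) : 𝕜 := (((2 * (Nat.sqrt n : ℝ) + 1)⁻¹ : ℝ) : 𝕜)

/-- The basis vectors. -/
noncomputable def xv (n : ℕ) : L1 𝕜 :=
  lp.single 1 (Sum.inl n) (1 : 𝕜) - ∑ k ∈ block (Nat.sqrt n), lp.single 1 (Sum.inl k) (wt 𝕜 n)
    + lp.single 1 (Sum.inr (Nat.sqrt n)) (wt 𝕜 n)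

theorem xv_inl (n k : ℕ) : ev 𝕜 (Sum.inl k) (xv 𝕜 n) =
    (if k = n then 1 else 0) - (if Nat.sqrt k = Nat.sqrt n then wt 𝕜 n else 0) := by
  simp only [xv, map_add, map_sub, map_sum, ev_apply, lp.single_apply]
  simp only [Pi.single_apply, Sum.inl.injEq, reduceCtorEq, if_false, add_zero]
  rw [Finset.sum_ite_eq]
  simp only [mem_block]

theorem xv_inr (n N : ℕ) : ev 𝕜 (Sum.inr N) (xv 𝕜 n) = if N = Nat.sqrt n then wt 𝕜 n else 0 := by
  simp only [xv, map_add, map_sub, map_sum, ev_apply, lp.single_apply]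
  simp [Pi.single_apply]

/-- The functionals on the ambient space. -/
noncomputable def fv (n : ℕ) : L1 𝕜 →L[𝕜] 𝕜 := ev 𝕜 (Sum.inl n) + ev 𝕜 (Sum.inr (Nat.sqrt n))

theorem fv_xv (i j : ℕ) : fv 𝕜 i (xv 𝕜 j) = if i = j then 1 else 0 := by
  simp only [fv, add_apply, xv_inl, xv_inr]
  by_cases h : Nat.sqrt i = Nat.sqrt j
  · simp [h]
  · simp [h]

/-- finite combinations -/
noncomputable def comb (c : ℕ → 𝕜) (K : ℕ) : L1 𝕜 := ∑ n ∈ Finset.range (K * K), c n • xv 𝕜 n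

theorem mean_eq (c : ℕ → 𝕜) (N : ℕ) : mean c N = ∑ n ∈ block N, c n * wt 𝕜 n := by
  unfold mean
  rw [Finset.mul_sum]
  refine Finset.sum_congr rfl (fun n hn => ?_)
  rw [wt, mem_block.mp hn, mul_comm]

theorem comb_inr (c : ℕ → 𝕜) (K N : ℕ) (hN : N < K) : (comb 𝕜 c K) (Sum.inr N) = mean c N := by
  rw [← ev_apply, comb, map_sum, ← sum_blocks, mean_eq]
  rw [Finset.sum_eq_single N]
  · refine Finset.sum_congr rfl (fun n hn => ?_)
    rw [map_smul, xv_inr, if_pos (mem_block.mp hn).symm, smul_eq_mul]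
  · intro M _ hM
    refine Finset.sum_eq_zero (fun n hn => ?_)
    rw [map_smul, xv_inr, if_neg (by rw [mem_block.mp hn]; exact hM.symm), smul_zero]
  · intro h
    exact absurd (Finset.mem_range.mpr hN) h

theorem comb_inr_zero (c : ℕ → 𝕜) (K N : ℕ) (hN : K ≤ N) : (comb 𝕜 c K) (Sum.inr N) = 0 := by
  rw [← ev_apply, comb, map_sum, ← sum_blocks]
  refine Finset.sum_eq_zero (fun M hM => Finset.sum_eq_zero (fun n hn => ?_))
  rw [map_smul, xv_inr, if_neg, smul_zero]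
  rw [mem_block.mp hn]
  have := Finset.mem_range.mp hM
  omega

theorem comb_fv (c : ℕ → 𝕜) (K k : ℕ) : fv 𝕜 k (comb 𝕜 c K) = if k < K * K then c k else 0 := by
  rw [comb, map_sum]
  simp only [map_smul, fv_xv, smul_eq_mul, mul_ite, mul_one, mul_zero]
  rw [Finset.sum_ite_eq]
  simp only [Finset.mem_range]

theorem comb_inl (c : ℕ → 𝕜) (K k : ℕ) : (comb 𝕜 c K) (Sum.inl k)
    = (if k < K * K then c k else 0) - (comb 𝕜 c K) (Sum.inr (Nat.sqrt k)) := by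
  rw [← comb_fv 𝕜 c K k]
  simp only [fv, add_apply, ev_apply]
  ring

theorem norm_comb (c : ℕ → 𝕜) (K : ℕ) : ‖comb 𝕜 c K‖ = ∑ N ∈ Finset.range K, g c N := by
  have h1 : ‖comb 𝕜 c K‖ = ∑' i, ‖(comb 𝕜 c K) i‖ := by
    have := lp.norm_eq_tsum_rpow (p := 1) (by norm_num) (comb 𝕜 c K)
    simpa using this
  have hsq : ∀ n, Nat.sqrt n < K ↔ n < K * K := fun n => Nat.sqrt_lt
  rw [h1, tsum_eq_sum (s := (Finset.range (K * K)).disjSum (Finset.range K))]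
  · rw [Finset.sum_disjSum, ← sum_blocks, ← Finset.sum_add_distrib]
    refine Finset.sum_congr rfl (fun N hN => ?_)
    have hN' := Finset.mem_range.mp hN
    unfold g
    rw [comb_inr 𝕜 c K N hN']
    congr 1
    refine Finset.sum_congr rfl (fun n hn => ?_)
    have hn' := mem_block.mp hn
    rw [comb_inl, hn', comb_inr 𝕜 c K N hN', if_pos ((hsq n).mp (by rw [hn']; exact hN'))]
  · rintro (n | N) hi
    · have hn : ¬ n < K * K := by
        intro h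
        apply hi
        simp [Finset.mem_disjSum, h]
      rw [comb_inl, if_neg hn, comb_inr_zero, sub_zero, norm_zero]
      by_contra h
      push Not at h
      exact hn ((hsq n).mp h)
    · have hn : ¬ N < K := by
        intro h
        apply hi
        simp [Finset.mem_disjSum, h]
      rw [comb_inr_zero 𝕜 c K N (by omega), norm_zero]

/-- finite sums over arbitrary sets are combinations -/
theorem sum_eq_comb (A : Finset ℕ) (c : ℕ → 𝕜) (K : ℕ) (hA : ∀ n ∈ A, n < K * K) :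
    ∑ n ∈ A, c n • xv 𝕜 n = comb 𝕜 (fun n => if n ∈ A then c n else 0) K := by
  unfold comb
  have h1 : ∀ n ∈ Finset.range (K * K), (if n ∈ A then c n else 0) • xv 𝕜 n
      = if n ∈ A then c n • xv 𝕜 n else 0 := by
    intro n _
    split_ifs <;> simp
  rw [Finset.sum_congr rfl h1, Finset.sum_ite_mem]
  congr 1
  symm
  rw [Finset.inter_eq_right]
  intro n hn
  exact Finset.mem_range.mpr (hA n hn)

theorem exists_K (A : Finset ℕ) : ∃ K : ℕ, ∀ n ∈ A, n < K * K := by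
  refine ⟨A.sup id + 1, fun n hn => ?_⟩
  have h1 : n ≤ A.sup id := Finset.le_sup (f := id) hn
  nlinarith

/-- The space: the closed linear span of the vectors. -/
noncomputable def X : Submodule 𝕜 (L1 𝕜) := (Submodule.span 𝕜 (Set.range (xv 𝕜))).topologicalClosure

instance : CompleteSpace (X 𝕜) :=
  (Submodule.isClosed_topologicalClosure (Submodule.span 𝕜 (Set.range (xv 𝕜)))).completeSpace_coe

theorem xv_mem (n : ℕ) : xv 𝕜 n ∈ X 𝕜 :=
  Submodule.le_topologicalClosure _ (Submodule.subset_span ⟨n, rfl⟩)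

/-- The basis. -/
noncomputable def x (n : ℕ) : X 𝕜 := ⟨xv 𝕜 n, xv_mem 𝕜 n⟩

/-- The coordinate functionals. -/
noncomputable def f (n : ℕ) : StrongDual 𝕜 (X 𝕜) := (fv 𝕜 n).comp (X 𝕜).subtypeL

theorem isBasis : IsBasis 𝕜 (x 𝕜) (f 𝕜) := by
  refine ⟨?_, fun i j => fv_xv 𝕜 i j⟩
  rw [eq_top_iff]
  rintro v -
  show v ∈ closure (Submodule.span 𝕜 (Set.range (x 𝕜)) : Set (X 𝕜))
  rw [Metric.mem_closure_iff]
  intro ε hε
  have h1 : (v : L1 𝕜) ∈ closure (Submodule.span 𝕜 (Set.range (xv 𝕜)) : Set (L1 𝕜)) := v.2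
  rw [Metric.mem_closure_iff] at h1
  obtain ⟨w, hw, hd⟩ := h1 ε hε
  have h2 : w ∈ X 𝕜 := Submodule.le_topologicalClosure _ hw
  refine ⟨⟨w, h2⟩, ?_, hd⟩
  have h3 : Submodule.span 𝕜 (Set.range (xv 𝕜)) =
      (Submodule.span 𝕜 (Set.range (x 𝕜))).map (X 𝕜).subtype := by
    rw [Submodule.map_span]
    congr 1
    ext y
    simp only [Set.mem_range, Set.mem_image]
    constructor
    · rintro ⟨n, rfl⟩
      exact ⟨x 𝕜 n, ⟨n, rfl⟩, rfl⟩
    · rintro ⟨_, ⟨n, rfl⟩, rfl⟩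
      exact ⟨n, rfl⟩
  have hw' : w ∈ Submodule.span 𝕜 (Set.range (xv 𝕜)) := hw
  rw [h3, Submodule.mem_map] at hw'
  obtain ⟨y, hy, hyw⟩ := hw'
  have : (⟨w, h2⟩ : X 𝕜) = y := Subtype.ext hyw.symm
  rw [this]
  exact hy

theorem norm_sum_X (A : Finset ℕ) (c : ℕ → 𝕜) :
    ‖∑ n ∈ A, c n • x 𝕜 n‖ = ‖∑ n ∈ A, c n • xv 𝕜 n‖ := by
  have h1 : ‖∑ n ∈ A, c n • x 𝕜 n‖ = ‖((∑ n ∈ A, c n • x 𝕜 n : X 𝕜) : L1 𝕜)‖ := rfl
  rw [h1]
  congr 1
  simp [x]

theorem lucc : LUCC 𝕜 (x 𝕜) := by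
  refine ⟨6, by norm_num, ?_⟩
  intro A ε a hε ha
  obtain ⟨K, hK⟩ := exists_K A
  rw [norm_sum_X, norm_sum_X 𝕜 A (fun n => ε n * (a n : 𝕜)), sum_eq_comb 𝕜 A _ K hK,
    sum_eq_comb 𝕜 A (fun n => ε n * (a n : 𝕜)) K hK, norm_comb, norm_comb, Finset.mul_sum]
  apply Finset.sum_le_sum
  intro N _
  have h1 : (fun n => if n ∈ A then ε n else 0)
      = fun n => ret ((fun n => if n ∈ A then ε n * (a n : 𝕜) else 0) n) := by
    funext n
    by_cases h : n ∈ A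
    · simp only [h, if_true]
      exact (ret_mul (hε n h) (ha n h)).symm
    · simp only [h, if_false]
      exact ret_zero.symm
  rw [h1]
  exact g_ret _ N

theorem not_succ : ¬ SUCC 𝕜 (x 𝕜) := by
  rintro ⟨C, hC1, hC⟩
  have key : ∀ N : ℕ, (N : ℝ) ≤ 2 * C := by
    intro N
    obtain ⟨B, hB1, hB2⟩ : ∃ B ⊆ block N, B.card = N :=
      Finset.exists_subset_card_eq (by rw [card_block]; omega)
    have h1 := hC (block N) B (fun _ => 1) hB1 (fun _ _ => by simp)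
    have hK : ∀ n ∈ block N, n < (N + 1) * (N + 1) := fun n hn => (Finset.mem_Ico.mp hn).2
    rw [norm_sum_X, norm_sum_X, sum_eq_comb 𝕜 B _ (N + 1) (fun n hn => hK n (hB1 hn)),
      sum_eq_comb 𝕜 (block N) _ (N + 1) hK, norm_comb, norm_comb] at h1
    have hNpos : (0 : ℝ) < 2 * N + 1 := by positivity
    -- the full block
    have h2 : ∑ M ∈ Finset.range (N + 1), g (fun n => if n ∈ block N then (1 : 𝕜) else 0) M = 1 := by
      rw [Finset.sum_eq_single N]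
      · have hm : mean (fun n => if n ∈ block N then (1 : 𝕜) else 0) N = 1 := by
          unfold mean
          rw [Finset.sum_ite_mem, Finset.inter_self, Finset.sum_const, card_block]
          simp only [nsmul_eq_mul, mul_one]
          have : ((2 * N + 1 : ℕ) : 𝕜) = (((2 * N + 1 : ℝ)) : 𝕜) := by push_cast; rfl
          rw [this, ← RCLike.ofReal_mul, inv_mul_cancel₀ hNpos.ne', RCLike.ofReal_one]
        unfold g
        rw [hm, Finset.sum_eq_zero]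
        · simp
        · intro n hn
          simp [hn]
      · intro M _ hM
        have h0 : ∀ n ∈ block M, (fun n => if n ∈ block N then (1 : 𝕜) else 0) n = 0 := by
          intro n hn
          have : n ∉ block N := (Finset.disjoint_left.mp (block_disj hM)) hn
          simp [this]
        have hm : mean (fun n => if n ∈ block N then (1 : 𝕜) else 0) M = 0 := by
          unfold mean
          rw [Finset.sum_eq_zero h0, mul_zero]
        unfold g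
        rw [hm, Finset.sum_eq_zero]
        · simp
        · intro n hn
          rw [h0 n hn]; simp
      · intro h
        exact absurd (Finset.mem_range.mpr (Nat.lt_succ_self N)) h
    -- the half block
    have h3 : (N : ℝ) / 2 ≤ ∑ M ∈ Finset.range (N + 1), g (fun n => if n ∈ B then (1 : 𝕜) else 0) M := by
      have hg0 : ∀ M, 0 ≤ g (fun n => if n ∈ B then (1 : 𝕜) else 0) M := by
        intro M
        exact add_nonneg (Finset.sum_nonneg (fun _ _ => norm_nonneg _)) (norm_nonneg _)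
      refine le_trans ?_ (Finset.single_le_sum (fun M _ => hg0 M)
        (Finset.mem_range.mpr (Nat.lt_succ_self N)))
      have hm : mean (fun n => if n ∈ B then (1 : 𝕜) else 0) N = (((N : ℝ) / (2 * N + 1) : ℝ) : 𝕜) := by
        unfold mean
        rw [Finset.sum_ite_mem, Finset.inter_eq_right.mpr hB1, Finset.sum_const, hB2]
        simp only [nsmul_eq_mul, mul_one]
        rw [div_eq_mul_inv, mul_comm (N : ℝ), RCLike.ofReal_mul]
        simp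
      have h4 : ∑ n ∈ B, ‖(1 : 𝕜) - (((N : ℝ) / (2 * N + 1) : ℝ) : 𝕜)‖ ≤
          g (fun n => if n ∈ B then (1 : 𝕜) else 0) N := by
        unfold g
        rw [hm]
        have h5 : ∑ n ∈ B, ‖(1 : 𝕜) - (((N : ℝ) / (2 * N + 1) : ℝ) : 𝕜)‖
            = ∑ n ∈ B, ‖(if n ∈ B then (1 : 𝕜) else 0) - (((N : ℝ) / (2 * N + 1) : ℝ) : 𝕜)‖ :=
          Finset.sum_congr rfl (fun n hn => by rw [if_pos hn])
        rw [h5]
        have h6 := Finset.sum_le_sum_of_subset_of_nonneg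
          (f := fun n => ‖(if n ∈ B then (1 : 𝕜) else 0) - (((N : ℝ) / (2 * N + 1) : ℝ) : 𝕜)‖) hB1
          (fun _ _ _ => norm_nonneg _)
        have h7 := norm_nonneg ((((N : ℝ) / (2 * N + 1) : ℝ) : 𝕜))
        linarith
      refine le_trans ?_ h4
      rw [Finset.sum_const, hB2, nsmul_eq_mul]
      have h8 : ‖(1 : 𝕜) - (((N : ℝ) / (2 * N + 1) : ℝ) : 𝕜)‖ = ((N : ℝ) + 1) / (2 * N + 1) := by
        rw [← RCLike.ofReal_one, ← RCLike.ofReal_sub, RCLike.norm_ofReal]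
        have : (1 : ℝ) - (N : ℝ) / (2 * N + 1) = ((N : ℝ) + 1) / (2 * N + 1) := by
          field_simp; ring
        rw [this, abs_of_nonneg (by positivity)]
      rw [h8]
      have h9 : (1 : ℝ) / 2 ≤ ((N : ℝ) + 1) / (2 * N + 1) := by
        rw [div_le_div_iff₀ (by norm_num) hNpos]
        linarith
      have hN0 : (0 : ℝ) ≤ N := Nat.cast_nonneg N
      calc (N : ℝ) / 2 = N * (1 / 2) := by ring
        _ ≤ N * (((N : ℝ) + 1) / (2 * N + 1)) := by gcongr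
    rw [h2, mul_one] at h1
    linarith
  obtain ⟨N, hN⟩ := exists_nat_gt (2 * C)
  exact absurd (key N) (not_le.mpr hN)

theorem fv_bound (n : ℕ) (v : L1 𝕜) : ‖fv 𝕜 n v‖ ≤ 2 * ‖v‖ := by
  have h1 : ‖v (Sum.inl n)‖ ≤ ‖v‖ := lp.norm_apply_le_norm (by norm_num) _ _
  have h2 : ‖v (Sum.inr (Nat.sqrt n))‖ ≤ ‖v‖ := lp.norm_apply_le_norm (by norm_num) _ _
  calc ‖fv 𝕜 n v‖ ≤ ‖v (Sum.inl n)‖ + ‖v (Sum.inr (Nat.sqrt n))‖ := norm_add_le _ _
    _ ≤ 2 * ‖v‖ := by linarith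

theorem f_norm (n : ℕ) : ‖f 𝕜 n‖ ≤ 2 :=
  (f 𝕜 n).opNorm_le_bound (by norm_num) (fun v => fv_bound 𝕜 n v)

theorem x_lower (n : ℕ) : 1 / 2 ≤ ‖x 𝕜 n‖ := by
  have h1 := fv_bound 𝕜 n (xv 𝕜 n)
  rw [fv_xv, if_pos rfl, norm_one] at h1
  have h2 : ‖x 𝕜 n‖ = ‖xv 𝕜 n‖ := rfl
  rw [h2]
  linarith

theorem x_upper (n : ℕ) : ‖x 𝕜 n‖ ≤ 3 := by
  have h2 : ‖x 𝕜 n‖ = ‖xv 𝕜 n‖ := rfl
  rw [h2]
  have hpos : (0 : ℝ) < 2 * (Nat.sqrt n : ℝ) + 1 := by positivity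
  have hw : ‖wt 𝕜 n‖ = (2 * (Nat.sqrt n : ℝ) + 1)⁻¹ := by
    rw [wt, RCLike.norm_ofReal, abs_of_nonneg (by positivity)]
  have hw1 : ‖wt 𝕜 n‖ ≤ 1 := by
    rw [hw]
    apply inv_le_one_of_one_le₀
    have : (0 : ℝ) ≤ (Nat.sqrt n : ℝ) := Nat.cast_nonneg _
    linarith
  have h3 : ‖(∑ k ∈ block (Nat.sqrt n), lp.single 1 (Sum.inl k) (wt 𝕜 n) : L1 𝕜)‖ ≤ 1 := by
    refine (norm_sum_le _ _).trans ?_
    have h4 : ∀ k ∈ block (Nat.sqrt n),
        ‖(lp.single 1 (Sum.inl k) (wt 𝕜 n) : L1 𝕜)‖ = (2 * (Nat.sqrt n : ℝ) + 1)⁻¹ := by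
      intro k _
      rw [lp.norm_single (by norm_num), hw]
    rw [Finset.sum_congr rfl h4, Finset.sum_const, card_block, nsmul_eq_mul]
    push_cast
    rw [mul_inv_cancel₀ hpos.ne']
  have h5 : ‖(lp.single 1 (Sum.inl n) (1 : 𝕜) : L1 𝕜)‖ = 1 := by
    rw [lp.norm_single (by norm_num)]; simp
  have h6 : ‖(lp.single 1 (Sum.inr (Nat.sqrt n)) (wt 𝕜 n) : L1 𝕜)‖ ≤ 1 := by
    rw [lp.norm_single (by norm_num)]; exact hw1
  calc ‖xv 𝕜 n‖ ≤ ‖(lp.single 1 (Sum.inl n) (1 : 𝕜) : L1 𝕜)‖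
        + ‖(∑ k ∈ block (Nat.sqrt n), lp.single 1 (Sum.inl k) (wt 𝕜 n) : L1 𝕜)‖
        + ‖(lp.single 1 (Sum.inr (Nat.sqrt n)) (wt 𝕜 n) : L1 𝕜)‖ :=
        (norm_add_le _ _).trans (by gcongr; exact norm_sub_le _ _)
    _ ≤ 3 := by linarith

end Pool.Agent.Results.MP_ee84c2_an.LUCCNotSUCC

open Pool.Agent.Results.MP_ee84c2_an.LUCCNotSUCC in
/-- There is a Banach space with a semi-normalized, `M`-bounded basis that is LUCC but not SUCC. -/
theorem Pool.Agent.Results.MP_ee84c2_an.LUCCNotSUCC.result (𝕜 : Type) [RCLike 𝕜] :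
    ∃ (X : Type) (_ : NormedAddCommGroup X) (_ : NormedSpace 𝕜 X) (_ : CompleteSpace X)
      (x : ℕ → X) (f : ℕ → StrongDual 𝕜 X),
      IsBasis 𝕜 x f ∧ (∀ n, 1 / 2 ≤ ‖x n‖ ∧ ‖x n‖ ≤ 3 ∧ ‖f n‖ ≤ 2) ∧ LUCC 𝕜 x ∧ ¬ SUCC 𝕜 x :=
  ⟨X 𝕜, inferInstance, inferInstance, inferInstance, x 𝕜, f 𝕜, isBasis 𝕜,
    fun n => ⟨x_lower 𝕜 n, x_upper 𝕜 n, f_norm 𝕜 n⟩, lucc 𝕜, not_succ 𝕜⟩
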